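import Mathlib
import Pool.Agent.N286.DE.SumA

set_option autoImplicit false

/-! # Complete exponential sums with Fermat quotients of polynomials -/

namespace Pool.Agent.N286.FQ

open Finset Polynomial
open Pool.Agent.Helper170.Weyl (e e_add norm_e conj_e e_int e_nat_mul)
open Pool.Agent.N286.DE (e_std e_val sum_e psi_sum e_zero)

/-- The Fermat quotient `(x ^ (p - 1) - 1) / p` modulo `p`, in `{0, ..., p - 1}`; it is `0` if
`p ∣ x`. -/
def fq (p : ℕ) (x : ℤ) : ℕ := if (p : ℤ) ∣ x then 0 else ((x ^ (p - 1) - 1) / p % p).toNat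

lemma fq_lt (p : ℕ) (x : ℤ) (hp : 0 < p) : fq p x < p := by
  unfold fq
  split_ifs
  · exact hp
  · have h1 := Int.emod_lt_of_pos ((x ^ (p - 1) - 1) / p) (show (0 : ℤ) < p by exact_mod_cast hp)
    have h2 := Int.emod_nonneg ((x ^ (p - 1) - 1) / p) (show (p : ℤ) ≠ 0 by exact_mod_cast hp.ne')
    omega

section

variable {p : ℕ} [Fact p.Prime]

lemma pow_eq (x : ℤ) (hx : ¬ (p : ℤ) ∣ x) : x ^ (p - 1) = 1 + p * ((x ^ (p - 1) - 1) / p) := by
  have h2 : (p : ℤ) ∣ x ^ (p - 1) - 1 := by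
    rw [← ZMod.intCast_zmod_eq_zero_iff_dvd]
    push_cast
    rw [ZMod.pow_card_sub_one_eq_one, sub_self]
    rwa [Ne, ZMod.intCast_zmod_eq_zero_iff_dvd]
  rw [Int.mul_ediv_cancel' h2]
  ring

lemma fq_cast (x : ℤ) (hx : ¬ (p : ℤ) ∣ x) :
    ((fq p x : ℕ) : ZMod p) = (((x ^ (p - 1) - 1) / p : ℤ) : ZMod p) := by
  have hp := (Fact.out : p.Prime)
  unfold fq
  rw [if_neg hx]
  have h2 := Int.emod_nonneg ((x ^ (p - 1) - 1) / p)
    (show (p : ℤ) ≠ 0 by exact_mod_cast hp.pos.ne')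
  have h3 : ((((x ^ (p - 1) - 1) / p % p).toNat : ℕ) : ℤ) = (x ^ (p - 1) - 1) / p % p :=
    Int.toNat_of_nonneg h2
  have h4 : ((((x ^ (p - 1) - 1) / p % p).toNat : ℕ) : ZMod p) =
      (((((x ^ (p - 1) - 1) / p % p).toNat : ℕ) : ℤ) : ZMod p) := by push_cast; rfl
  rw [h4, h3, ZMod.intCast_mod]

/-- the Fermat quotients along a class modulo `p` -/
lemma fq_add (x y : ℤ) (hx : ¬ (p : ℤ) ∣ x) :
    ((fq p (x + p * y) : ℕ) : ZMod p) = (fq p x : ℕ) - y * (x : ZMod p)⁻¹ := by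
  have hp := (Fact.out : p.Prime)
  have hx' : ¬ (p : ℤ) ∣ x + p * y := by
    intro h
    exact hx ((dvd_add_left (Dvd.intro _ rfl)).1 h)
  rw [fq_cast x hx, fq_cast _ hx']
  have h1 := pow_eq x hx
  have h2 := pow_eq (x + p * y) hx'
  set A := (x ^ (p - 1) - 1) / (p : ℤ) with hA
  set B := ((x + p * y) ^ (p - 1) - 1) / (p : ℤ) with hB
  obtain ⟨k, hk⟩ := Polynomial.powAddExpansion x ((p : ℤ) * y) (p - 1)
  rw [h1, h2] at hk
  have hpz : (p : ℤ) ≠ 0 := by exact_mod_cast hp.ne_zero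
  have h5 : B = A + ((p - 1 : ℕ) : ℤ) * x ^ (p - 1 - 1) * y + k * p * y ^ 2 := by
    apply mul_left_cancel₀ hpz
    linear_combination hk
  have h6 := congrArg (fun z : ℤ => (z : ZMod p)) h5
  simp only [Int.cast_add, Int.cast_mul, Int.cast_pow, Int.cast_natCast] at h6
  rw [h6, Nat.cast_sub hp.one_lt.le, Nat.cast_one, ZMod.natCast_self]
  have hx0 : (x : ZMod p) ≠ 0 := by rwa [Ne, ZMod.intCast_zmod_eq_zero_iff_dvd]
  have h7 : (x : ZMod p) ^ (p - 1 - 1) = (x : ZMod p)⁻¹ := by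
    apply eq_inv_of_mul_eq_one_left
    rw [← pow_succ, Nat.sub_add_cancel (by have := hp.two_le; omega)]
    exact ZMod.pow_card_sub_one_eq_one hx0
  rw [h7]
  ring

lemma sum_sq (hp : 0 < p) (f : ℕ → ℂ) :
    ∑ z ∈ range (p ^ 2), f z = ∑ x ∈ range p, ∑ y ∈ range p, f (x + p * y) := by
  rw [← sum_product']
  refine sum_nbij' (fun z => (z % p, z / p)) (fun w => w.1 + p * w.2) ?_ ?_ ?_ ?_ ?_
  · intro z hz
    rw [mem_range] at hz
    rw [mem_product, mem_range, mem_range]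
    exact ⟨Nat.mod_lt _ hp, Nat.div_lt_of_lt_mul (by rw [← pow_two]; exact hz)⟩
  · intro w hw
    rw [mem_product, mem_range, mem_range] at hw
    rw [mem_range]
    have h1 : w.2 + 1 ≤ p := hw.2
    calc w.1 + p * w.2 < p + p * w.2 := by omega
      _ = p * (w.2 + 1) := by ring
      _ ≤ p * p := Nat.mul_le_mul_left _ h1
      _ = p ^ 2 := by ring
  · intro z _
    exact Nat.mod_add_div z p
  · intro w hw
    rw [mem_product, mem_range, mem_range] at hw
    refine Prod.ext ?_ ?_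
    · show (w.1 + p * w.2) % p = w.1
      rw [Nat.add_mul_mod_self_left, Nat.mod_eq_of_lt hw.1]
    · show (w.1 + p * w.2) / p = w.2
      rw [Nat.add_mul_div_left _ _ hp, Nat.div_eq_of_lt hw.1, zero_add]
  · intro z _
    rw [Nat.mod_add_div z p]

lemma e_nat (h n : ℕ) : e ((h : ℝ) * (n : ℝ) / p) =
    ZMod.stdAddChar (N := p) ((h : ZMod p) * (n : ZMod p)) := by
  have h1 := e_std p ((h * n : ℕ) : ℤ)
  have h2 : (((h * n : ℕ) : ℤ) : ZMod p) = (h : ZMod p) * n := by push_cast; rfl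
  rw [h2] at h1
  rw [← h1]
  congr 1
  push_cast
  ring

lemma sum_char (t : ZMod p) (ht : t ≠ 0) :
    ∑ y ∈ range p, ZMod.stdAddChar (N := p) ((y : ZMod p) * t) = 0 := by
  have h1 : ∀ y ∈ range p, ZMod.stdAddChar (N := p) ((y : ZMod p) * t) =
      e ((y : ℝ) * ((t.val : ℤ) : ℝ) / p) := by
    intro y _
    rw [← e_val]
    push_cast
    rfl
  rw [sum_congr rfl h1, sum_e p (Fact.out : p.Prime).one_lt.le, if_neg]
  intro h
  apply ht
  rw [Int.natCast_dvd_natCast] at h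
  have h2 := Nat.eq_zero_of_dvd_of_lt h (ZMod.val_lt t)
  rwa [ZMod.val_eq_zero] at h2

variable {k : ℕ} (f : Fin k → ℤ[X]) (a c : ℕ) (h : Fin k → ℕ)

/-- the reduction modulo `p` -/
noncomputable def red (p : ℕ) (g : ℤ[X]) : (ZMod p)[X] := g.map (Int.castRingHom (ZMod p))

lemma red_eval (g : ℤ[X]) (x : ℤ) : ((g.eval x : ℤ) : ZMod p) = (red p g).eval (x : ZMod p) := by
  unfold red
  rw [eval_intCast_map]
  rfl

/-- the frequency in a class modulo `p` -/
noncomputable def frq (u : ZMod p) : ZMod p :=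
  (c : ZMod p) - ∑ i, (h i : ZMod p) * ((red p (f i)).derivative.eval u *
    ((red p (f i)).eval u)⁻¹)

lemma fq_poly (g : ℤ[X]) (x y : ℤ) (hx : (red p g).eval (x : ZMod p) ≠ 0) :
    ((fq p (g.eval (x + p * y)) : ℕ) : ZMod p) = (fq p (g.eval x) : ℕ) -
      y * ((red p g).derivative.eval (x : ZMod p) * ((red p g).eval (x : ZMod p))⁻¹) := by
  obtain ⟨r, hr⟩ := g.binomExpansion x ((p : ℤ) * y)
  have h1 : g.eval (x + p * y) = g.eval x + p * (g.derivative.eval x * y + r * p * y ^ 2) := by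
    rw [hr]; ring
  have h2 : ¬ (p : ℤ) ∣ g.eval x := by
    rw [← ZMod.intCast_zmod_eq_zero_iff_dvd, red_eval]
    exact hx
  rw [h1, fq_add _ _ h2, red_eval]
  have h3 : ((g.derivative.eval x * y + r * p * y ^ 2 : ℤ) : ZMod p) =
      (red p g).derivative.eval (x : ZMod p) * y := by
    push_cast
    rw [ZMod.natCast_self, red_eval]
    unfold red
    rw [derivative_map]
    ring
  rw [h3]
  ring

lemma term_eq (x y : ℕ) (hx : ∀ i, (red p (f i)).eval ((a + x : ℕ) : ZMod p) ≠ 0) :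
    e ((c : ℝ) * ((x + p * y : ℕ) : ℝ) / ((p ^ 2 : ℕ) : ℝ)) *
      ∏ i, e ((h i : ℝ) * ((fq p ((f i).eval ((a + (x + p * y) : ℕ) : ℤ)) : ℕ) : ℝ) / p) =
    (e ((c : ℝ) * (x : ℝ) / ((p ^ 2 : ℕ) : ℝ)) *
      ∏ i, e ((h i : ℝ) * ((fq p ((f i).eval ((a + x : ℕ) : ℤ)) : ℕ) : ℝ) / p)) *
      ZMod.stdAddChar (N := p) ((y : ZMod p) * frq f c h ((a + x : ℕ) : ZMod p)) := by
  have hp0 : (p : ℝ) ≠ 0 := by exact_mod_cast (Fact.out : p.Prime).ne_zero
  have h1 : e ((c : ℝ) * ((x + p * y : ℕ) : ℝ) / ((p ^ 2 : ℕ) : ℝ)) =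
      e ((c : ℝ) * (x : ℝ) / ((p ^ 2 : ℕ) : ℝ)) *
        ZMod.stdAddChar (N := p) ((y : ZMod p) * (c : ZMod p)) := by
    rw [← e_nat y c, ← e_add]
    congr 1
    push_cast
    field_simp
  have h2 : ∀ i, e ((h i : ℝ) * ((fq p ((f i).eval ((a + (x + p * y) : ℕ) : ℤ)) : ℕ) : ℝ) / p) =
      e ((h i : ℝ) * ((fq p ((f i).eval ((a + x : ℕ) : ℤ)) : ℕ) : ℝ) / p) *
        ZMod.stdAddChar (N := p) (-((y : ZMod p) * ((h i : ZMod p) *
          ((red p (f i)).derivative.eval ((a + x : ℕ) : ZMod p) *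
            ((red p (f i)).eval ((a + x : ℕ) : ZMod p))⁻¹)))) := by
    intro i
    have h3 : ((a + (x + p * y) : ℕ) : ℤ) = ((a + x : ℕ) : ℤ) + p * (y : ℤ) := by push_cast; ring
    have h5 := hx i
    have h4 := fq_poly (p := p) (f i) ((a + x : ℕ) : ℤ) (y : ℤ) (by
      push_cast at h5 ⊢
      exact h5)
    rw [h3, e_nat, e_nat, h4, ← AddChar.map_add_eq_mul]
    congr 1
    push_cast
    ring
  rw [h1, prod_congr rfl fun i _ => h2 i, prod_mul_distrib, ← psi_sum]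
  have h4 : (y : ZMod p) * frq f c h ((a + x : ℕ) : ZMod p) = (y : ZMod p) * (c : ZMod p) +
      ∑ i, -((y : ZMod p) * ((h i : ZMod p) *
        ((red p (f i)).derivative.eval ((a + x : ℕ) : ZMod p) *
            ((red p (f i)).eval ((a + x : ℕ) : ZMod p))⁻¹))) := by
    unfold frq
    rw [sum_neg_distrib, ← mul_sum]
    ring
  rw [h4, AddChar.map_add_eq_mul]
  ring

/-- the sum over a class modulo `p` -/
lemma inner_le (x : ℕ) : ‖∑ y ∈ range p,
    e ((c : ℝ) * ((x + p * y : ℕ) : ℝ) / ((p ^ 2 : ℕ) : ℝ)) *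
      ∏ i, e ((h i : ℝ) * ((fq p ((f i).eval ((a + (x + p * y) : ℕ) : ℤ)) : ℕ) : ℝ) / p)‖ ≤ p := by
  refine (norm_sum_le _ _).trans ?_
  have h1 : ∀ y ∈ range p, ‖e ((c : ℝ) * ((x + p * y : ℕ) : ℝ) / ((p ^ 2 : ℕ) : ℝ)) *
      ∏ i, e ((h i : ℝ) * ((fq p ((f i).eval ((a + (x + p * y) : ℕ) : ℤ)) : ℕ) : ℝ) / p)‖ = 1 := by
    intro y _
    rw [norm_mul, norm_e, norm_prod, prod_congr rfl fun i _ => norm_e _]
    simp
  rw [sum_congr rfl h1]
  simp

lemma inner_zero (x : ℕ) (hx : ∀ i, (red p (f i)).eval ((a + x : ℕ) : ZMod p) ≠ 0)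
    (hf : frq f c h ((a + x : ℕ) : ZMod p) ≠ 0) :
    ∑ y ∈ range p,
    e ((c : ℝ) * ((x + p * y : ℕ) : ℝ) / ((p ^ 2 : ℕ) : ℝ)) *
      ∏ i, e ((h i : ℝ) * ((fq p ((f i).eval ((a + (x + p * y) : ℕ) : ℤ)) : ℕ) : ℝ) / p) = 0 := by
  rw [sum_congr rfl fun y _ => term_eq f a c h x y hx, ← mul_sum, sum_char _ hf, mul_zero]

/-- the polynomial whose roots are the classes with frequency zero -/
noncomputable def Q (p : ℕ) {k : ℕ} (f : Fin k → ℤ[X]) (c : ℕ) (h : Fin k → ℕ) : (ZMod p)[X] :=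
  C (c : ZMod p) * ∏ i, red p (f i) -
    ∑ i, C (h i : ZMod p) * ((red p (f i)).derivative * ∏ j ∈ univ.erase i, red p (f j))

lemma Q_eval (u : ZMod p) (hu : ∀ i, (red p (f i)).eval u ≠ 0) :
    (Q p f c h).eval u = (∏ i, (red p (f i)).eval u) * frq f c h u := by
  unfold Q frq
  simp only [eval_sub, eval_mul, eval_C, eval_prod, eval_finsetSum]
  rw [mul_sub, mul_sum]
  congr 1
  · ring
  · refine sum_congr rfl fun i _ => ?_
    rw [← mul_prod_erase univ (fun j => (red p (f j)).eval u) (mem_univ i)]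
    have := hu i
    field_simp

lemma Q_ne (hd : ∀ i, 1 ≤ (red p (f i)).natDegree) (hs : ∀ i, (red p (f i)).Separable)
    (hb : ∀ i j, i ≠ j → IsCoprime (red p (f i)) (red p (f j))) (i₀ : Fin k)
    (hi : (h i₀ : ZMod p) ≠ 0) : Q p f c h ≠ 0 := by
  intro h0
  have h1 : red p (f i₀) ∣ C (h i₀ : ZMod p) * ((red p (f i₀)).derivative *
      ∏ j ∈ univ.erase i₀, red p (f j)) := by
    have h2 : C (h i₀ : ZMod p) * ((red p (f i₀)).derivative *
      ∏ j ∈ univ.erase i₀, red p (f j)) = C (c : ZMod p) * ∏ i, red p (f i) -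
        ∑ i ∈ univ.erase i₀, C (h i : ZMod p) * ((red p (f i)).derivative *
          ∏ j ∈ univ.erase i, red p (f j)) := by
      unfold Q at h0
      rw [← add_sum_erase univ _ (mem_univ i₀)] at h0
      linear_combination -h0
    rw [h2]
    refine dvd_sub (Dvd.dvd.mul_left (dvd_prod_of_mem _ (mem_univ i₀)) _) ?_
    refine dvd_sum fun i hi => Dvd.dvd.mul_left (Dvd.dvd.mul_left ?_ _) _
    exact dvd_prod_of_mem _ (mem_erase.2 ⟨Ne.symm (mem_erase.1 hi).1, mem_univ i₀⟩)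
  have h3 : IsCoprime (red p (f i₀)) (C (h i₀ : ZMod p) * ((red p (f i₀)).derivative *
      ∏ j ∈ univ.erase i₀, red p (f j))) := by
    refine IsCoprime.mul_right ?_ (IsCoprime.mul_right (hs i₀) ?_)
    · have hu : IsUnit (C (h i₀ : ZMod p)) := isUnit_C.2 (IsUnit.mk0 _ hi)
      exact (isCoprime_mul_unit_right_right hu (red p (f i₀)) 1).2 isCoprime_one_right |>
        fun h => by simpa using h
    · exact IsCoprime.prod_right fun j hj => hb i₀ j (Ne.symm (mem_erase.1 hj).1)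
  have h4 := h3.isUnit_of_dvd' dvd_rfl h1
  have h5 := natDegree_eq_zero_of_isUnit h4
  have h6 := hd i₀
  omega

lemma red_ne (hd : ∀ i, 1 ≤ (red p (f i)).natDegree) (i : Fin k) : red p (f i) ≠ 0 := by
  intro h0
  have := hd i
  rw [h0, natDegree_zero] at this
  omega

lemma Q_degree (d : ℕ) (hd : ∀ i, (f i).natDegree ≤ d) : (Q p f c h).natDegree ≤ k * d := by
  have hr : ∀ i, (red p (f i)).natDegree ≤ d := fun i => (natDegree_map_le).trans (hd i)
  unfold Q
  refine (natDegree_sub_le _ _).trans (max_le ?_ ?_)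
  · refine (natDegree_C_mul_le _ _).trans ((natDegree_prod_le _ _).trans ?_)
    refine (sum_le_sum fun i _ => hr i).trans ?_
    simp
  · refine natDegree_sum_le_of_forall_le _ _ fun i _ => (natDegree_C_mul_le _ _).trans ?_
    refine natDegree_mul_le.trans ?_
    have h1 : (red p (f i)).derivative.natDegree ≤ d :=
      (natDegree_derivative_le _).trans ((Nat.sub_le _ _).trans (hr i))
    have h2 : (∏ j ∈ univ.erase i, red p (f j)).natDegree ≤ (k - 1) * d := by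
      refine (natDegree_prod_le _ _).trans ((sum_le_sum fun i _ => hr i).trans ?_)
      rw [sum_const, smul_eq_mul, card_erase_of_mem (mem_univ i), card_univ, Fintype.card_fin]
    have hk : 1 ≤ k := Fin.pos i
    calc _ ≤ d + (k - 1) * d := add_le_add h1 h2
      _ = (k - 1 + 1) * d := by ring
      _ = k * d := by rw [Nat.sub_add_cancel hk]

/-- The complete sum modulo `p ^ 2`. -/
theorem sum_le (d : ℕ) (hdd : ∀ i, (f i).natDegree ≤ d) (hd : ∀ i, 1 ≤ (red p (f i)).natDegree)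
    (hs : ∀ i, (red p (f i)).Separable)
    (hb : ∀ i j, i ≠ j → IsCoprime (red p (f i)) (red p (f j)))
    (hh : ∀ i, h i < p) (h0 : h ≠ 0) :
    ‖∑ z ∈ range (p ^ 2), e ((c : ℝ) * (z : ℝ) / ((p ^ 2 : ℕ) : ℝ)) *
      ∏ i, e ((h i : ℝ) * ((fq p ((f i).eval ((a + z : ℕ) : ℤ)) : ℕ) : ℝ) / p)‖ ≤
        2 * (k * d) * p := by
  classical
  have hp := (Fact.out : p.Prime)
  obtain ⟨i₀, hi₀⟩ := Function.ne_iff.1 h0
  have hi : (h i₀ : ZMod p) ≠ 0 := by
    rw [Ne, ZMod.natCast_eq_zero_iff]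
    intro h1
    exact hi₀ (Nat.eq_zero_of_dvd_of_lt h1 (hh i₀))
  have hQ := Q_ne (p := p) f c h hd hs hb i₀ hi
  set P : (ZMod p)[X] := ∏ i, red p (f i) with hP
  have hP0 : P ≠ 0 := prod_ne_zero_iff.2 fun i _ => red_ne f hd i
  set bad : Finset ℕ := (range p).filter fun x => (∃ i, (red p (f i)).eval ((a + x : ℕ) : ZMod p) = 0) ∨
    frq f c h ((a + x : ℕ) : ZMod p) = 0 with hbad
  have h1 : ‖∑ z ∈ range (p ^ 2), e ((c : ℝ) * (z : ℝ) / ((p ^ 2 : ℕ) : ℝ)) *
      ∏ i, e ((h i : ℝ) * ((fq p ((f i).eval ((a + z : ℕ) : ℤ)) : ℕ) : ℝ) / p)‖ ≤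
      ∑ x ∈ range p, if x ∈ bad then (p : ℝ) else 0 := by
    rw [sum_sq hp.pos]
    refine (norm_sum_le _ _).trans (Finset.sum_le_sum fun x hx => ?_)
    split_ifs with hxb
    · exact inner_le f a c h x
    · rw [hbad, mem_filter, not_and] at hxb
      have h2 := hxb hx
      push Not at h2
      rw [inner_zero f a c h x h2.1 h2.2, norm_zero]
  refine h1.trans ?_
  rw [← sum_filter, sum_const, nsmul_eq_mul]
  have hinj : Set.InjOn (fun x : ℕ => ((a + x : ℕ) : ZMod p))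
      ((range p).filter fun x => x ∈ bad : Finset ℕ) := by
    intro x hx y hy hxy
    have hx' := mem_range.1 (mem_filter.1 (mem_coe.1 hx)).1
    have hy' := mem_range.1 (mem_filter.1 (mem_coe.1 hy)).1
    have h2 : (x : ZMod p) = (y : ZMod p) := by
      have h3 : ((a + x : ℕ) : ZMod p) = ((a + y : ℕ) : ZMod p) := hxy
      push_cast at h3
      exact add_left_cancel h3
    have h3 := congrArg ZMod.val h2
    rwa [ZMod.val_natCast, ZMod.val_natCast, Nat.mod_eq_of_lt hx', Nat.mod_eq_of_lt hy'] at h3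
  have h3 : ((range p).filter fun x => x ∈ bad).card ≤ 2 * (k * d) := by
    have h4 : ∀ x ∈ ((range p).filter fun x => x ∈ bad), (fun x : ℕ => ((a + x : ℕ) : ZMod p)) x ∈
        P.roots.toFinset ∪ (Q p f c h).roots.toFinset := by
      intro x hx
      rw [mem_filter, mem_range, hbad, mem_filter] at hx
      obtain ⟨hxp, _, hx2⟩ := hx
      rw [mem_union, Multiset.mem_toFinset, Multiset.mem_toFinset, mem_roots hP0, mem_roots hQ,
        IsRoot.def, IsRoot.def]
      by_cases hdiv : ∃ i, (red p (f i)).eval ((a + x : ℕ) : ZMod p) = 0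
      · left
        obtain ⟨i, hi⟩ := hdiv
        rw [hP, eval_prod]
        exact prod_eq_zero (mem_univ i) hi
      · right
        have hf := hx2.resolve_left hdiv
        push Not at hdiv
        rw [Q_eval f c h _ hdiv, hf, mul_zero]
    refine (card_le_card_of_injOn _ h4 hinj).trans ((card_union_le _ _).trans ?_)
    have h5 : P.roots.toFinset.card ≤ k * d := by
      refine (Multiset.toFinset_card_le _).trans ((card_roots' _).trans ?_)
      rw [hP]
      refine (natDegree_prod_le _ _).trans ?_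
      refine (Finset.sum_le_sum fun i _ => (natDegree_map_le).trans (hdd i)).trans ?_
      simp
    have h6 : (Q p f c h).roots.toFinset.card ≤ k * d :=
      (Multiset.toFinset_card_le _).trans ((card_roots' _).trans (Q_degree f c h d hdd))
    omega
  have h7 : (((range p).filter fun x => x ∈ bad).card : ℝ) ≤ 2 * (k * d) := by exact_mod_cast h3
  exact mul_le_mul_of_nonneg_right h7 (Nat.cast_nonneg _)

end

end Pool.Agent.N286.FQ
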