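import Pool.Agent.N286.DE.Main
import Pool.Agent.N286.FQ.Sum

set_option autoImplicit false

/-! # Fermat quotients in record gaps -/

namespace Pool.Agent.N286.FQ

open Finset Filter Polynomial
open Pool.Agent.H256R2.SC (ff)
open Pool.Agent.W147.PS (ff_compare ev_pow)
open Pool.Agent.Helper170.Weyl (e)
open Pool.Agent.N286.DE (main)

/-- the theorem for Fermat quotients -/
theorem final (k d : ℕ) (hk : 1 ≤ k) (δ : ℝ) (hδ : 0 < δ) (hδ1 : δ ≤ 1) :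
    ∃ κ : ℝ, 0 < κ ∧ ∃ p₀ : ℕ, ∀ p : ℕ, p.Prime → p₀ ≤ p →
    ∀ f : Fin k → ℤ[X], (∀ i, (f i).natDegree ≤ d) →
    (∀ i, 1 ≤ (red p (f i)).natDegree) → (∀ i, (red p (f i)).Separable) →
    (∀ i j, i ≠ j → IsCoprime (red p (f i)) (red p (f j))) →
    ∀ (a L : ℕ) (c D : Fin k → ℕ), L ≤ p ^ 2 → (∀ i, c i + D i ≤ p) →
    (p : ℝ) ^ δ ≤ L → (∀ i, (p : ℝ) ^ δ ≤ D i) →
    (p : ℝ) ^ ((k : ℝ) + 1 + δ) ≤ L * ∏ i, (D i : ℝ) →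
    (L * ∏ i, (D i : ℝ)) * (p : ℝ) ^ (-((k : ℝ) + δ)) ≤
      Set.ncard {x : ℕ | a ≤ x ∧ x < a + L ∧
        (∀ i, c i ≤ fq p ((f i).eval (x : ℤ)) ∧ fq p ((f i).eval (x : ℤ)) < c i + D i) ∧
        ∀ m : ℤ, (|(m : ℝ) - x| ≤ κ * ff p ∨
            ∃ i, |(m : ℝ) - (fq p ((f i).eval (x : ℤ)) : ℕ)| ≤ κ * ff p) →
          ∃ q : ℕ, q.Prime ∧ (q : ℝ) ≤ (p : ℝ) ^ δ ∧ (q : ℤ) ∣ m ∧ (q : ℤ) < m} := by
  obtain ⟨κ, hκ, hmain⟩ := main k 2 δ hδ hδ1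
  obtain ⟨P₀, hP₀⟩ := eventually_atTop.mp (hmain.and
    ((tendsto_rpow_atTop (show (0 : ℝ) < δ / 4 by positivity)).eventually_ge_atTop (2 * (k * d))))
  refine ⟨κ, hκ, ⌈P₀⌉₊, ?_⟩
  intro p hp hp₀ f hfd hf1 hfs hfc a L c D hL hcD hLp hDp hLD
  have : Fact p.Prime := ⟨hp⟩
  have hp1 : (1 : ℝ) ≤ p := by exact_mod_cast hp.one_lt.le
  have hp0 : (0 : ℝ) < p := by linarith
  have hk1 : (1 : ℝ) ≤ k := by exact_mod_cast hk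
  have hd1 : (1 : ℝ) ≤ d := by
    have h1 := hf1 ⟨0, hk⟩
    have h2 : (red p (f ⟨0, hk⟩)).natDegree ≤ d := natDegree_map_le.trans (hfd _)
    have h3 : 1 ≤ d := h1.trans h2
    exact_mod_cast h3
  obtain ⟨hm, h2⟩ := hP₀ p ((Nat.le_ceil _).trans (by exact_mod_cast hp₀))
  refine hm p rfl (p ^ 2) (Nat.one_le_pow _ _ hp.pos) le_rfl (fun x i => fq p ((f i).eval (x : ℤ)))
    (fun x i => fq_lt p _ hp.pos) (2 * (k * d) * p) ?_ ?_ a L c D hL hcD hLp hDp ?_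
  · have : 1 ≤ (k : ℝ) * d := by nlinarith
    nlinarith
  · intro a' c' _ h hhp hh
    exact sum_le (p := p) f a' c' h d hfd hf1 hfs hfc hhp hh
  · refine le_trans ?_ hLD
    have h3 : (p : ℝ) ^ ((k : ℝ) + 1 + δ) =
        (p : ℝ) ^ (δ / 4) * p * (p : ℝ) ^ ((k : ℝ) + 3 * δ / 4) := by
      rw [mul_comm ((p : ℝ) ^ (δ / 4)) (p : ℝ), mul_assoc, ← Real.rpow_add hp0]
      conv_rhs => rw [← Real.rpow_one (p : ℝ), ← Real.rpow_mul hp0.le, one_mul,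
        ← Real.rpow_add hp0]
      congr 1
      ring
    rw [h3]
    have h4 : 0 < (p : ℝ) ^ ((k : ℝ) + 3 * δ / 4) := by positivity
    refine mul_le_mul_of_nonneg_right ?_ h4.le
    exact mul_le_mul_of_nonneg_right h2 hp0.le

end Pool.Agent.N286.FQ
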